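import Pool.Agent.H43.DPC.Targets

open MeasureTheory SchwartzMap Filter Topology
open scoped ENNReal ContDiff

namespace Pool.Agent.H82.DPC

open Pool.Agent.H43.DPC

noncomputable section

lemma gau_nonneg (d : ℕ) {t : ℝ} (ht : 0 < t) (x : V d) : 0 ≤ gau d t x := by
  unfold gau
  have : 0 < 2 * Real.pi * t := by positivity
  positivity

lemma gau_neg (d : ℕ) (t : ℝ) (x : V d) : gau d t (-x) = gau d t x := by
  unfold gau; rw [norm_neg]

lemma gau_int (d : ℕ) {t : ℝ} (ht : 0 < t) : ∫ y, gau d t y = 1 := by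
  unfold gau
  rw [integral_const_mul]
  have h1 := GaussianFourier.integral_rexp_neg_mul_sq_norm (V := V d) (b := 1 / (2 * t))
    (by positivity)
  have h2 : (fun y : V d => Real.exp (-(‖y‖ ^ 2 / (2 * t)))) =
      fun y : V d => Real.exp (-(1 / (2 * t)) * ‖y‖ ^ 2) := by
    funext y; congr 1; ring
  rw [h2, h1, finrank_euclideanSpace, Fintype.card_fin]
  have h3 : Real.pi / (1 / (2 * t)) = 2 * Real.pi * t := by field_simp
  rw [h3, ← Real.rpow_add (by positivity), neg_div, neg_add_cancel, Real.rpow_zero]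

lemma gau_cont (d : ℕ) (t : ℝ) : Continuous (gau d t) := by
  unfold gau; fun_prop

lemma gau_integrable (hG : T_GAU) (d : ℕ) {t : ℝ} (ht : 0 < t) (k : ℕ) :
    Integrable (fun y => gau d t y * ‖y‖ ^ k) := by
  obtain ⟨g, hg⟩ := hG.exists_S d t ht
  have := g.integrable_pow_mul (volume : Measure (V d)) k
  refine this.congr (Eventually.of_forall fun y => ?_)
  simp only [hg]
  rw [Real.norm_of_nonneg (gau_nonneg d ht y), mul_comm]

lemma gau_integrable' (hG : T_GAU) (d : ℕ) {t : ℝ} (ht : 0 < t) (k : ℕ) :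
    Integrable (fun y => gau d t y * (‖y‖ * (1 + ‖y‖) ^ k)) := by
  have h1 : (fun y : V d => gau d t y * (‖y‖ * (1 + ‖y‖) ^ k)) = fun y => ∑ j ∈ Finset.range (k + 1),
      (k.choose j : ℝ) * (gau d t y * ‖y‖ ^ (k - j + 1)) := by
    funext y
    rw [add_pow, Finset.mul_sum, Finset.mul_sum]
    refine Finset.sum_congr rfl fun j _ => ?_
    rw [one_pow, pow_succ]; ring
  rw [h1]
  exact integrable_finsetSum _ fun j _ => (gau_integrable hG d ht _).const_mul _

lemma gau_bound (hG : T_GAU) (d k : ℕ) : ∃ C : ℝ, 0 ≤ C ∧ ∀ t : ℝ, 0 < t → t ≤ 1 →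
    ∫ y, gau d t y * (‖y‖ * (1 + ‖y‖) ^ k) ≤ C * Real.sqrt t := by
  refine ⟨∫ y, gau d 1 y * (‖y‖ * (1 + ‖y‖) ^ k), ?_, ?_⟩
  · exact integral_nonneg fun y => mul_nonneg (gau_nonneg d one_pos y) (by positivity)
  intro t ht ht1
  have hs : 0 < Real.sqrt t := Real.sqrt_pos.2 ht
  have hs1 : Real.sqrt t ≤ 1 := Real.sqrt_le_one.2 ht1
  have h1 := Measure.integral_comp_smul (μ := (volume : Measure (V d)))
    (fun y => gau d t y * (‖y‖ * (1 + ‖y‖) ^ k)) (Real.sqrt t)
  rw [finrank_euclideanSpace, Fintype.card_fin, smul_eq_mul,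
    abs_of_pos (by positivity : 0 < (Real.sqrt t ^ d)⁻¹)] at h1
  have h2 : ∫ y, gau d t y * (‖y‖ * (1 + ‖y‖) ^ k) =
      Real.sqrt t ^ d * ∫ z : V d, gau d t (Real.sqrt t • z) *
        (‖Real.sqrt t • z‖ * (1 + ‖Real.sqrt t • z‖) ^ k) := by
    rw [h1, ← mul_assoc, mul_inv_cancel₀ (by positivity), one_mul]
  rw [h2, ← integral_const_mul, mul_comm, ← integral_const_mul]
  have h3 : ∀ z : V d, Real.sqrt t ^ d * gau d t (Real.sqrt t • z) = gau d 1 z := by
    intro z
    unfold gau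
    rw [norm_smul, Real.norm_of_nonneg hs.le, mul_pow, Real.sq_sqrt ht.le]
    have e1 : t * ‖z‖ ^ 2 / (2 * t) = ‖z‖ ^ 2 / (2 * 1) := by field_simp
    have e2 : (2 * Real.pi * t) ^ (-(d : ℝ) / 2) =
        (2 * Real.pi * 1) ^ (-(d : ℝ) / 2) * t ^ (-(d : ℝ) / 2) := by
      rw [mul_one, Real.mul_rpow (by positivity) ht.le]
    have e3 : Real.sqrt t ^ d * t ^ (-(d : ℝ) / 2) = 1 := by
      rw [Real.sqrt_eq_rpow, ← Real.rpow_natCast, ← Real.rpow_mul ht.le, ← Real.rpow_add ht]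
      rw [show 1 / 2 * (d : ℝ) + -(d : ℝ) / 2 = 0 by ring, Real.rpow_zero]
    rw [e1, e2]
    linear_combination ((2 * Real.pi * 1) ^ (-(d : ℝ) / 2) *
      Real.exp (-(‖z‖ ^ 2 / (2 * 1)))) * e3
  refine integral_mono_of_nonneg (Eventually.of_forall fun z => ?_)
    ((gau_integrable' hG d one_pos k).const_mul _) (Eventually.of_forall fun z => ?_)
  · have := gau_nonneg d ht (Real.sqrt t • z)
    positivity
  · simp only
    rw [← mul_assoc (Real.sqrt t ^ d), h3 z]
    have h4 : ‖Real.sqrt t • z‖ = Real.sqrt t * ‖z‖ := by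
      rw [norm_smul, Real.norm_of_nonneg hs.le]
    rw [h4]
    have h5 : (1 + Real.sqrt t * ‖z‖) ^ k ≤ (1 + ‖z‖) ^ k := by
      refine pow_le_pow_left₀ (by positivity) ?_ k
      nlinarith [norm_nonneg z]
    have h6 := gau_nonneg d one_pos z
    calc gau d 1 z * (Real.sqrt t * ‖z‖ * (1 + Real.sqrt t * ‖z‖) ^ k)
        ≤ gau d 1 z * (Real.sqrt t * ‖z‖ * (1 + ‖z‖) ^ k) := by gcongr
      _ = Real.sqrt t * (gau d 1 z * (‖z‖ * (1 + ‖z‖) ^ k)) := by ring

/-- difference bound for a Schwartz function -/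
lemma diff_bound {d : ℕ} {E : Type} [NormedAddCommGroup E] [NormedSpace ℝ E] (g : 𝓢(V d, E))
    (k : ℕ) : ∃ C : ℝ, 0 ≤ C ∧ ∀ x y : V d,
      ‖x‖ ^ k * ‖g (x - y) - g x‖ ≤ C * (‖y‖ * (1 + ‖y‖) ^ k) := by
  obtain ⟨M, hM0, hM⟩ : ∃ M : ℝ, 0 ≤ M ∧ ∀ z : V d, (1 + ‖z‖) ^ k * ‖fderiv ℝ g z‖ ≤ M := by
    refine ⟨2 ^ k * ((Finset.Iic (k, 1)).sup (fun m => SchwartzMap.seminorm ℝ m.1 m.2)) g,
      by positivity, fun z => ?_⟩
    have := SchwartzMap.one_add_le_sup_seminorm_apply (𝕜 := ℝ) (m := (k, 1)) (k := k) (n := 1)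
      le_rfl le_rfl g z
    rwa [norm_iteratedFDeriv_one] at this
  refine ⟨M, hM0, fun x y => ?_⟩
  have hseg : ∀ z ∈ segment ℝ (x - y) x, ‖x‖ ^ k * ‖fderiv ℝ g z‖ ≤ M * (1 + ‖y‖) ^ k := by
    intro z hz
    have hz1 : ‖x - z‖ ≤ ‖y‖ := by
      rw [segment_eq_image] at hz
      obtain ⟨θ, ⟨h0, h1⟩, rfl⟩ := hz
      have : x - ((1 - θ) • (x - y) + θ • x) = (1 - θ) • y := by module
      rw [this, norm_smul, Real.norm_of_nonneg (by linarith)]
      nlinarith [norm_nonneg y]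
    have hx : ‖x‖ ≤ (1 + ‖z‖) * (1 + ‖y‖) := by
      have : ‖x‖ ≤ ‖z‖ + ‖x - z‖ := by
        calc ‖x‖ = ‖z + (x - z)‖ := by rw [add_sub_cancel]
          _ ≤ _ := norm_add_le _ _
      nlinarith [norm_nonneg z, norm_nonneg y]
    calc ‖x‖ ^ k * ‖fderiv ℝ g z‖ ≤ ((1 + ‖z‖) * (1 + ‖y‖)) ^ k * ‖fderiv ℝ g z‖ := by gcongr
      _ = (1 + ‖y‖) ^ k * ((1 + ‖z‖) ^ k * ‖fderiv ℝ g z‖) := by rw [mul_pow]; ring
      _ ≤ (1 + ‖y‖) ^ k * M := by gcongr; exact hM z
      _ = M * (1 + ‖y‖) ^ k := by ring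
  rcases eq_or_ne (‖x‖ ^ k) 0 with h0 | h0
  · rw [h0, zero_mul]; positivity
  have hpos : 0 < ‖x‖ ^ k := lt_of_le_of_ne (by positivity) (Ne.symm h0)
  have hmv := Convex.norm_image_sub_le_of_norm_hasFDerivWithin_le (𝕜 := ℝ) (f := g)
    (f' := fderiv ℝ g) (s := segment ℝ (x - y) x) (C := M * (1 + ‖y‖) ^ k / ‖x‖ ^ k)
    (x := x) (y := x - y) (fun z _ => (g.hasFDerivAt z).hasFDerivWithinAt)
    (fun z hz => by rw [le_div_iff₀ hpos, mul_comm]; exact hseg z hz) (convex_segment _ _)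
    (right_mem_segment _ _ _) (left_mem_segment _ _ _)
  have e : x - y - x = -y := by abel
  rw [e, norm_neg] at hmv
  calc ‖x‖ ^ k * ‖g (x - y) - g x‖
      ≤ ‖x‖ ^ k * (M * (1 + ‖y‖) ^ k / ‖x‖ ^ k * ‖y‖) := by gcongr
    _ = M * (‖y‖ * (1 + ‖y‖) ^ k) := by field_simp

lemma bdd {d : ℕ} {E : Type} [NormedAddCommGroup E] [NormedSpace ℝ E] (g : 𝓢(V d, E)) :
    ∃ M : ℝ, ∀ x, ‖g x‖ ≤ M := ⟨_, fun x => SchwartzMap.norm_le_seminorm ℝ g x⟩

lemma main (hG : T_GAU) (d : ℕ) : ∀ (l : ℕ) (E : Type) [NormedAddCommGroup E] [NormedSpace ℝ E]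
    [CompleteSpace E] (g : 𝓢(V d, E)) (G : ℝ → 𝓢(V d, E)),
    (∀ t, 0 < t → ∀ x, G t x = ∫ y, gau d t y • g (x - y)) → ∀ k : ℕ, ∃ C : ℝ, 0 ≤ C ∧
      ∀ t, 0 < t → t ≤ 1 → ∀ x,
        ‖x‖ ^ k * ‖iteratedFDeriv ℝ l (fun x => G t x - g x) x‖ ≤ C * Real.sqrt t := by
  intro l
  induction l with
  | zero =>
    intro E _ _ _ g G hGg k
    obtain ⟨C, hC, hb⟩ := diff_bound g k
    obtain ⟨C', hC', hb'⟩ := gau_bound hG d k
    obtain ⟨M, hM⟩ := bdd g
    refine ⟨C * C', by positivity, fun t ht ht1 x => ?_⟩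
    rw [norm_iteratedFDeriv_zero, hGg t ht x]
    have hi1 : Integrable (fun y => gau d t y • g (x - y)) := by
      have h0 : Integrable (gau d t) := by
        simpa using gau_integrable hG d ht 0
      refine (h0.mul_const M).mono' ((gau_cont d t).smul
          (g.continuous.comp (continuous_const.sub continuous_id))).aestronglyMeasurable
          (Eventually.of_forall fun y => ?_)
      rw [norm_smul, Real.norm_of_nonneg (gau_nonneg d ht y)]
      exact mul_le_mul_of_nonneg_left (hM _) (gau_nonneg d ht y)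
    have hi2 : Integrable (fun y => gau d t y • g x) := by
      have h0 : Integrable (gau d t) := by
        simpa using gau_integrable hG d ht 0
      exact h0.smul_const _
    have h1 : (∫ y, gau d t y • g (x - y)) - g x = ∫ y, gau d t y • (g (x - y) - g x) := by
      have : g x = ∫ y, gau d t y • g x := by
        rw [integral_smul_const, gau_int d ht, one_smul]
      conv_lhs => rw [this]
      rw [← integral_sub hi1 hi2]
      refine integral_congr_ae (Eventually.of_forall fun y => ?_)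
      simp only
      rw [smul_sub]
    rw [h1]
    calc ‖x‖ ^ k * ‖∫ y, gau d t y • (g (x - y) - g x)‖
        ≤ ‖x‖ ^ k * ∫ y, ‖gau d t y • (g (x - y) - g x)‖ := by
          gcongr; exact norm_integral_le_integral_norm _
      _ = ∫ y, ‖x‖ ^ k * ‖gau d t y • (g (x - y) - g x)‖ := by rw [integral_const_mul]
      _ ≤ ∫ y, C * (gau d t y * (‖y‖ * (1 + ‖y‖) ^ k)) := by
          refine integral_mono_of_nonneg (Eventually.of_forall fun y => by positivity)
            ((gau_integrable' hG d ht k).const_mul _) (Eventually.of_forall fun y => ?_)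
          simp only
          rw [norm_smul, Real.norm_of_nonneg (gau_nonneg d ht y)]
          have h2 := hb x y
          have h3 := gau_nonneg d ht y
          calc ‖x‖ ^ k * (gau d t y * ‖g (x - y) - g x‖)
              = gau d t y * (‖x‖ ^ k * ‖g (x - y) - g x‖) := by ring
            _ ≤ gau d t y * (C * (‖y‖ * (1 + ‖y‖) ^ k)) := by gcongr
            _ = C * (gau d t y * (‖y‖ * (1 + ‖y‖) ^ k)) := by ring
      _ = C * ∫ y, gau d t y * (‖y‖ * (1 + ‖y‖) ^ k) := by rw [integral_const_mul]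
      _ ≤ C * (C' * Real.sqrt t) := by gcongr; exact hb' t ht ht1
      _ = C * C' * Real.sqrt t := by ring
  | succ l ih =>
    intro E _ _ _ g G hGg k
    have hder : ∀ t, 0 < t → ∀ x, (fderivCLM ℝ (V d) E (G t)) x =
        ∫ y, gau d t y • (fderivCLM ℝ (V d) E g) (x - y) := by
      intro t ht x
      rw [fderivCLM_apply]
      obtain ⟨M, hM⟩ := bdd (fderivCLM ℝ (V d) E g)
      obtain ⟨M', hM'⟩ := bdd g
      have h0 : Integrable (gau d t) := by
        simpa using gau_integrable hG d ht 0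
      have hF : (G t : V d → E) = fun x => ∫ y, gau d t y • g (x - y) := funext (hGg t ht)
      rw [hF]
      refine HasFDerivAt.fderiv ?_
      refine hasFDerivAt_integral_of_dominated_of_fderiv_le (s := Set.univ)
        (bound := fun y => gau d t y * M) (F := fun x y => gau d t y • g (x - y))
        (F' := fun x y => gau d t y • (fderivCLM ℝ (V d) E g) (x - y)) univ_mem ?_ ?_ ?_ ?_ ?_ ?_
      · refine Eventually.of_forall fun x => ?_
        exact ((gau_cont d t).smul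
          (g.continuous.comp (continuous_const.sub continuous_id))).aestronglyMeasurable
      · refine (h0.mul_const M').mono' ((gau_cont d t).smul
          (g.continuous.comp (continuous_const.sub continuous_id))).aestronglyMeasurable
          (Eventually.of_forall fun y => ?_)
        rw [norm_smul, Real.norm_of_nonneg (gau_nonneg d ht y)]
        exact mul_le_mul_of_nonneg_left (hM' _) (gau_nonneg d ht y)
      · exact ((gau_cont d t).smul ((fderivCLM ℝ (V d) E g).continuous.comp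
          (continuous_const.sub continuous_id))).aestronglyMeasurable
      · refine Eventually.of_forall fun y x _ => ?_
        rw [norm_smul, Real.norm_of_nonneg (gau_nonneg d ht y)]
        exact mul_le_mul_of_nonneg_left (hM _) (gau_nonneg d ht y)
      · exact h0.mul_const _
      · refine Eventually.of_forall fun y x _ => ?_
        have h1 : HasFDerivAt (fun x => g (x - y)) (fderiv ℝ g (x - y)) x := by
          have := (g.hasFDerivAt (x - y)).comp x ((hasFDerivAt_id x).sub_const y)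
          rw [ContinuousLinearMap.comp_id] at this
          exact this
        have h2 := h1.const_smul (gau d t y)
        rw [fderivCLM_apply]
        exact h2
    obtain ⟨C, hC, hb⟩ := ih (V d →L[ℝ] E) (fderivCLM ℝ (V d) E g)
      (fun t => fderivCLM ℝ (V d) E (G t)) hder k
    refine ⟨C, hC, fun t ht ht1 x => ?_⟩
    have h1 := hb t ht ht1 x
    have h2 : (fun x => (fderivCLM ℝ (V d) E (G t)) x - (fderivCLM ℝ (V d) E g) x) =
        fderiv ℝ (fun x => G t x - g x) := by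
      funext z
      rw [fderivCLM_apply, fderivCLM_apply]
      exact (((G t).hasFDerivAt z).sub (g.hasFDerivAt z)).fderiv.symm
    rw [h2, norm_iteratedFDeriv_fderiv] at h1
    exact h1

theorem APX (hGAU : T_GAU) : T_APX := by
  intro d f F hF
  have hF' : ∀ t, 0 < t → ∀ x, F t x = ∫ y, gau d t y • f (x - y) := by
    intro t ht x
    rw [hF t ht x, ← integral_sub_left_eq_self _ _ x]
    refine integral_congr_ae (Eventually.of_forall fun y => ?_)
    simp only [smul_eq_mul]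
    rw [sub_sub_cancel, mul_comm]
  rw [(schwartz_withSeminorms ℝ (V d) ℝ).tendsto_nhds _ _]
  intro i ε hε
  obtain ⟨C, hC, hb⟩ := main hGAU d i.2 ℝ f F hF' i.1
  have hlim : Tendsto (fun t : ℝ => C * Real.sqrt t) (𝓝[>] 0) (𝓝 0) := by
    have h1 : Tendsto (fun t : ℝ => C * Real.sqrt t) (𝓝 0) (𝓝 (C * Real.sqrt 0)) :=
      (continuous_const.mul Real.continuous_sqrt).tendsto 0
    rw [Real.sqrt_zero, mul_zero] at h1
    exact h1.mono_left nhdsWithin_le_nhds
  have h1 : ∀ᶠ t : ℝ in 𝓝[>] 0, C * Real.sqrt t < ε := hlim.eventually (gt_mem_nhds hε)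
  have h2 : ∀ᶠ t : ℝ in 𝓝[>] 0, t ≤ 1 := by
    have : Set.Ioc (0 : ℝ) 1 ∈ 𝓝[>] (0 : ℝ) := Ioc_mem_nhdsGT one_pos
    filter_upwards [this] with t ht using ht.2
  filter_upwards [h1, h2, self_mem_nhdsWithin] with t ht1 ht2 ht3
  refine lt_of_le_of_lt ?_ ht1
  rw [schwartzSeminormFamily_apply]
  refine SchwartzMap.seminorm_le_bound ℝ i.1 i.2 _ (by positivity) fun x => ?_
  exact hb t ht3 ht2 x

end

end Pool.Agent.H82.DPC
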